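import Pool.Agent.Helper72.CommCA.Fin

/-!
# The space of commuting pairs of `C^r` circle diffeomorphisms is not locally connected for
`1 ≤ r < 2`

`MP_ac5a3a_an`, question Q1 for every real `r` with `1 ≤ r < 2` (negative answer).

`CommCA.CommPairsR r` is the space of pairs of commuting orientation preserving `C^r`
diffeomorphisms of `ℝ / ℤ` with the `C^r` topology.

Idea. There is a commuting pair `(f, g)` of `C^r` diffeomorphisms of Pixton-Tsuboi type: the lift
`F` of `f` has a fixed point `p` and is to the right of the identity elsewhere, and the lift `G` of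
`g` has infinitely many fixed points accumulating at `p`; the pair is a `C^r` limit of commuting
pairs `(f_N, g_N)` for which the lift `F_N` has no fixed point at all. On the other hand, if
`G (x₀) > x₀` and `G (y) < y`, then for every pair near `(f, g)` and every `j` one has
`F ^ j (x₀) ≠ y`, because `G (F ^ j (x₀)) = F ^ j (G (x₀)) ≥ F ^ j (x₀)`. So the sets
`F ^ j (x₀) < y` are open and closed near `(f, g)`; they all contain `(f, g)` (the orbit of `x₀`
does not pass the fixed point `p`) and their intersection contains none of the `(f_N, g_N)`.

The lengths of the wandering intervals decay like `k ^ (-1 - 1 / m)`; the derivatives of the maps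
are Hoelder continuous of exponent `β`, uniformly in `N`, as soon as `m ≥ 2 / (1 - β)`.
-/

open Topology

namespace Pool.Agent.Results.MP_ac5a3a_an.NotLocallyConnectedBelowTwo

open CommCA

/-- For every real `r` with `1 ≤ r < 2` the space of commuting pairs of orientation preserving
`C^r` diffeomorphisms of the circle is not locally connected: there are a commuting pair `q` and a
neighbourhood `U` of `q` such that no connected neighbourhood of `q` is contained in `U`. -/
theorem result (r : ℝ) (h1 : 1 ≤ r) (h2 : r < 2) : ¬ LocallyConnectedSpace (CommPairsR r) ∧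
    ∃ q : CommPairsR r, ∃ U ∈ 𝓝 q, ∀ V ∈ 𝓝 q, V ⊆ U → ¬ IsConnected V := by
  obtain ⟨q, U, hU, h⟩ := CommCA.main r h1 h2
  refine ⟨fun hL => ?_, q, U, hU, fun V hV hVU hc => h V hV hVU hc.isPreconnected⟩
  obtain ⟨V, ⟨hVo, hqV, hVc⟩, hVU⟩ := (hL.open_connected_basis q).mem_iff.mp hU
  exact h V (hVo.mem_nhds hqV) hVU hVc.isPreconnected

end Pool.Agent.Results.MP_ac5a3a_an.NotLocallyConnectedBelowTwo
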